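import Mathlib
import Pool.Agent.Helper3.DL.Defs

/-!
# Module DL-4: binomial matrices are invertible
-/

namespace Pool.Agent.DL

open MeasureTheory Finset

variable {n k : ℕ}

open Polynomial in
theorem binom_det (e : Fin n → ℕ) (he : Function.Injective e) (h1 : ∀ j, 1 ≤ e j) :
    (Matrix.of fun j i : Fin n => ((e j).choose ((i : ℕ) + 1) : ℝ)).det ≠ 0 := by
  classical
  intro hdet
  obtain ⟨c, hc, hMc⟩ := Matrix.exists_mulVec_eq_zero_iff.2 hdet
  -- the polynomial
  set q : ℝ[X] := ∑ i : Fin n, C (c i / ((i : ℕ) + 1).factorial) * descPochhammer ℝ ((i : ℕ) + 1)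
    with hq
  have hqe : ∀ m : ℕ, q.eval (m : ℝ) = ∑ i : Fin n, c i * (m.choose ((i : ℕ) + 1) : ℝ) := by
    intro m
    rw [hq, eval_finsetSum]
    refine Finset.sum_congr rfl fun i _ => ?_
    rw [eval_mul, eval_C, Nat.cast_choose_eq_descPochhammer_div]
    ring
  have hqdeg : q.natDegree ≤ n := by
    rw [hq]
    refine natDegree_sum_le_of_forall_le _ _ fun i _ => ?_
    refine (natDegree_C_mul_le _ _).trans ?_
    rw [descPochhammer_natDegree]
    exact i.2
  have hq0 : q = 0 := by
    have h0mem : (0 : ℝ) ∉ Finset.univ.image (fun j : Fin n => (e j : ℝ)) := by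
      simp only [Finset.mem_image, Finset.mem_univ, true_and, not_exists]
      intro j hj
      have h2 : e j = 0 := by exact_mod_cast hj
      have := h1 j
      omega
    have hcard : (insert (0 : ℝ) (Finset.univ.image (fun j : Fin n => (e j : ℝ)))).card = n + 1 := by
      rw [Finset.card_insert_of_notMem h0mem, Finset.card_image_of_injective, Finset.card_univ,
        Fintype.card_fin]
      intro a b hab
      have hab' : (e a : ℝ) = e b := hab
      exact he (by exact_mod_cast hab')
    refine eq_zero_of_natDegree_lt_card_of_eval_eq_zero' q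
      (insert (0 : ℝ) (Finset.univ.image (fun j : Fin n => (e j : ℝ)))) ?_ ?_
    · intro x hx
      rcases Finset.mem_insert.1 hx with rfl | hx
      · have := hqe 0
        simpa using this
      · obtain ⟨j, -, rfl⟩ := Finset.mem_image.1 hx
        rw [hqe]
        have h2 := congrFun hMc j
        simp only [Matrix.mulVec, dotProduct, Matrix.of_apply, Pi.zero_apply] at h2
        rw [← h2]
        exact Finset.sum_congr rfl fun i _ => mul_comm _ _
    · rw [hcard]
      omega
  apply hc
  have key : ∀ m : ℕ, ∀ i : Fin n, (i : ℕ) = m → c i = 0 := by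
    intro m
    induction m using Nat.strong_induction_on with
    | _ m ih =>
      intro i him
      have h2 := hqe (m + 1)
      rw [hq0, eval_zero, Finset.sum_eq_single i] at h2
      · rw [him, Nat.choose_self, Nat.cast_one, mul_one] at h2
        exact h2.symm
      · intro l _ hl
        rcases lt_trichotomy (l : ℕ) m with hlm | hlm | hlm
        · rw [ih l hlm l rfl, zero_mul]
        · exact absurd (Fin.ext (hlm.trans him.symm)) hl
        · rw [Nat.choose_eq_zero_of_lt (by omega), Nat.cast_zero, mul_zero]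
      · intro h
        exact absurd (Finset.mem_univ _) h
  funext i
  exact key i i rfl

theorem det_curve (e : Fin n → ℕ) (he : Function.Injective e) (h1 : ∀ j, 1 ≤ e j) {u ρ : ℝ}
    (hu : u ≠ 0) (hρ : ρ ≠ 0) : (PM e u ρ).det ≠ 0 := by
  have hfac : PM e u ρ = Matrix.diagonal (fun j => u ^ e j) *
      (Matrix.of fun j i : Fin n => ((e j).choose ((i : ℕ) + 1) : ℝ)) *
      Matrix.diagonal (fun i : Fin n => (ρ / u) ^ ((i : ℕ) + 1)) := by
    ext j i
    rw [Matrix.mul_diagonal, Matrix.diagonal_mul, Matrix.of_apply]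
    simp only [PM]
    by_cases hle : (i : ℕ) + 1 ≤ e j
    · rw [div_pow, pow_sub₀ _ hu hle]
      field_simp
    · rw [Nat.choose_eq_zero_of_lt (by omega)]
      simp
  rw [hfac, Matrix.det_mul, Matrix.det_mul, Matrix.det_diagonal, Matrix.det_diagonal]
  refine mul_ne_zero (mul_ne_zero ?_ (binom_det e he h1)) ?_
  · exact Finset.prod_ne_zero_iff.2 fun j _ => pow_ne_zero _ hu
  · exact Finset.prod_ne_zero_iff.2 fun j _ => pow_ne_zero _ (div_ne_zero hρ hu)

end Pool.Agent.DL
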