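import Mathlib
import Pool.Agent.Helper3.DL.Defs

/-!
# Module DL-3: affine geometry of the cells
-/

namespace Pool.Agent.DL

open MeasureTheory Finset

variable {n k : ℕ}

theorem P_eq (e : Fin n → ℕ) (u ρ : ℝ) (lam : Fin n → ℝ) :
    P e u ρ lam = P e u ρ 0 + (PM e u ρ).mulVec lam := by
  funext j
  simp [P, PM, Matrix.mulVec, dotProduct]

namespace Cells

open Polynomial

/-- the functional on polynomials with value `1` at `1` and `lam i` at `X ^ (i + 1)` -/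
noncomputable def Lf (lam : Fin n → ℝ) : ℝ[X] →ₗ[ℝ] ℝ :=
  lcoeff ℝ 0 + ∑ i : Fin n, lam i • lcoeff ℝ ((i : ℕ) + 1)

lemma Lf_apply (lam : Fin n → ℝ) (q : ℝ[X]) :
    Lf lam q = q.coeff 0 + ∑ i : Fin n, lam i * q.coeff ((i : ℕ) + 1) := by
  simp [Lf]

lemma coeff_lin_pow (u ρ : ℝ) (m l : ℕ) :
    ((C ρ * X + C u) ^ m).coeff l = (m.choose l : ℝ) * u ^ (m - l) * ρ ^ l := by
  have h : (C ρ * X + C u) ^ m = ((X + C u) ^ m).comp (C ρ * X) := by
    simp
  rw [h, comp_C_mul_X_coeff, coeff_X_add_C_pow]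
  ring

lemma P_mom (u ρ : ℝ) (lam : Fin n → ℝ) (j : Fin n) :
    P (mom n) u ρ lam j = Lf lam ((C ρ * X + C u) ^ ((j : ℕ) + 1)) := by
  rw [Lf_apply, coeff_lin_pow]
  simp only [P, mom, coeff_lin_pow]
  congr 1
  · simp
  · exact Finset.sum_congr rfl fun i _ => by ring

lemma Lf_one (lam : Fin n → ℝ) : Lf lam (1 : ℝ[X]) = 1 := by
  rw [Lf_apply, coeff_one_zero, Finset.sum_eq_zero, add_zero]
  intro i _
  rw [coeff_one, if_neg (by omega), mul_zero]

/-- change of variables -/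
lemma Lf_comp (v ρ' : ℝ) (lam : Fin n → ℝ) (q : ℝ[X]) (hq : q.natDegree ≤ n) :
    Lf (P (mom n) v ρ' lam) q = Lf lam (q.comp (C ρ' * X + C v)) := by
  have h1 : q.comp (C ρ' * X + C v) =
      ∑ m ∈ Finset.range (n + 1), q.coeff m • (C ρ' * X + C v) ^ m := by
    rw [comp, eval₂_eq_sum_range' C (Nat.lt_succ_of_le hq)]
    exact Finset.sum_congr rfl fun m _ => by rw [smul_eq_C_mul]
  rw [h1, map_sum, Finset.sum_range_succ', Lf_apply, add_comm]
  congr 1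
  · rw [← Fin.sum_univ_eq_sum_range
      (fun m => Lf lam (q.coeff (m + 1) • (C ρ' * X + C v) ^ (m + 1))) n]
    refine Finset.sum_congr rfl fun i _ => ?_
    rw [map_smul, P_mom, smul_eq_mul, mul_comm]
  · rw [pow_zero, map_smul, Lf_one, smul_eq_mul, mul_one]

lemma Lf_eval (q : ℝ[X]) (hq : q.natDegree ≤ n) : Lf (fun _ : Fin n => (1 : ℝ)) q = q.eval 1 := by
  rw [eval_eq_sum_range' (Nat.lt_succ_of_le hq), Finset.sum_range_succ', Lf_apply, add_comm]
  congr 1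
  · rw [← Fin.sum_univ_eq_sum_range (fun m => q.coeff (m + 1) * (1 : ℝ) ^ (m + 1)) n]
    exact Finset.sum_congr rfl fun i _ => by rw [one_pow, one_mul, mul_one]
  · simp

lemma natDegree_lin_pow (u ρ : ℝ) (m : ℕ) : ((C ρ * X + C u) ^ m).natDegree ≤ m := by
  refine natDegree_pow_le.trans ?_
  have : (C ρ * X + C u).natDegree ≤ 1 := natDegree_linear_le
  nlinarith

/-- the value at the constant vector `1` -/
lemma P_mom_one (u ρ : ℝ) (j : Fin n) :
    P (mom n) u ρ (fun _ => 1) j = (ρ + u) ^ ((j : ℕ) + 1) := by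
  rw [P_mom, Lf_eval _ ((natDegree_lin_pow u ρ _).trans j.2)]
  simp

lemma P_zero (σ : ℝ) (lam : Fin n → ℝ) (j : Fin n) :
    P (mom n) 0 σ lam j = σ ^ ((j : ℕ) + 1) * lam j := by
  simp only [P, mom]
  rw [Finset.sum_eq_single j]
  · simp
  · intro i _ hi
    rcases lt_trichotomy (i : ℕ) j with h | h | h
    · rw [zero_pow (by omega : (j : ℕ) + 1 - ((i : ℕ) + 1) ≠ 0)]
      ring
    · exact absurd (Fin.ext h) hi
    · rw [Nat.choose_eq_zero_of_lt (by omega)]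
      simp
  · intro h
    exact absurd (Finset.mem_univ _) h

end Cells

open Cells

theorem P_comp (u ρ v ρ' : ℝ) (lam : Fin n → ℝ) :
    P (mom n) u ρ (P (mom n) v ρ' lam) = P (mom n) (u + ρ * v) (ρ * ρ') lam := by
  funext j
  rw [P_mom, Lf_comp _ _ _ _ ((natDegree_lin_pow u ρ _).trans j.2), P_mom]
  congr 1
  simp only [Polynomial.pow_comp, Polynomial.add_comp, Polynomial.mul_comp, Polynomial.C_comp,
    Polynomial.X_comp]
  congr 1
  simp only [Polynomial.C_add, Polynomial.C_mul]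
  ring

theorem P_zero_one (lam : Fin n → ℝ) : P (mom n) 0 1 lam = lam := by
  funext j
  rw [P_zero]
  simp

theorem cell_comp (u ρ v ρ' C : ℝ) :
    cell (mom n) (u + ρ * v) (ρ * ρ') C = P (mom n) u ρ '' cell (mom n) v ρ' C := by
  unfold cell
  rw [Set.image_image]
  exact Set.image_congr fun lam _ => (P_comp u ρ v ρ' lam).symm

theorem cell_nested {C v ρ' : ℝ} (hC : 1 ≤ C) (hv : 0 ≤ v) (hρ : 0 ≤ ρ') (h : v + ρ' ≤ 1) :
    cell (mom n) v ρ' C ⊆ box n C := by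
  rintro _ ⟨lam, hlam, rfl⟩ j
  have hC0 : 0 ≤ C := by linarith
  have h1 : |P (mom n) v ρ' lam j| ≤ C * P (mom n) v ρ' (fun _ => 1) j := by
    simp only [P, mul_one]
    refine (abs_add_le _ _).trans ?_
    rw [mul_add, Finset.mul_sum]
    refine add_le_add ?_ ((Finset.abs_sum_le_sum_abs _ _).trans (Finset.sum_le_sum fun i _ => ?_))
    · rw [abs_of_nonneg (pow_nonneg hv _)]
      nlinarith [pow_nonneg hv (mom n j)]
    · have h2 : 0 ≤ ((mom n j).choose ((i : ℕ) + 1) : ℝ) * v ^ (mom n j - ((i : ℕ) + 1)) *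
          ρ' ^ ((i : ℕ) + 1) := by positivity
      rw [abs_mul, abs_of_nonneg h2, mul_comm C]
      exact mul_le_mul_of_nonneg_left (hlam i) h2
  refine h1.trans ?_
  rw [P_mom_one]
  have h2 : (ρ' + v) ^ ((j : ℕ) + 1) ≤ 1 := pow_le_one₀ (by linarith) (by linarith)
  nlinarith

theorem cell_subset {C u ρ v ρ' : ℝ} (hC : 1 ≤ C) (hρ : 0 < ρ) (hρ' : 0 ≤ ρ') (h1 : u ≤ v)
    (h2 : v + ρ' ≤ u + ρ) : cell (mom n) v ρ' C ⊆ cell (mom n) u ρ C := by
  have e1 : v = u + ρ * ((v - u) / ρ) := by field_simp; ring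
  have e2 : ρ' = ρ * (ρ' / ρ) := by field_simp
  have h3 : cell (mom n) v ρ' C = P (mom n) u ρ '' cell (mom n) ((v - u) / ρ) (ρ' / ρ) C := by
    rw [← cell_comp, ← e1, ← e2]
  rw [h3]
  refine Set.image_mono (cell_nested hC (div_nonneg (by linarith) hρ.le)
    (div_nonneg hρ' hρ.le) ?_)
  rw [← add_div, div_le_one hρ]
  linarith

theorem cell_zero_subset {C σ v ρ' : ℝ} (hC : 1 ≤ C) (hσ : 0 < σ) (hρ' : 0 ≤ ρ') (h1 : 0 ≤ v)
    (h2 : v + ρ' ≤ σ) {ξ : Fin n → ℝ} (hξ : ξ ∈ cell (mom n) v ρ' C) (i : Fin n) :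
    |ξ i| ≤ C * σ ^ ((i : ℕ) + 1) := by
  obtain ⟨lam, hlam, rfl⟩ := cell_subset hC hσ hρ' h1 (by linarith) hξ
  rw [P_zero, abs_mul, abs_of_pos (pow_pos hσ _), mul_comm]
  exact mul_le_mul_of_nonneg_right (hlam i) (pow_pos hσ _).le

theorem det_mom {u ρ : ℝ} (hρ : ρ ≠ 0) : (PM (mom n) u ρ).det ≠ 0 := by
  rw [Matrix.det_of_isLowerTriangular]
  · refine Finset.prod_ne_zero_iff.2 fun i _ => ?_
    simp [PM, mom, hρ]
  · intro j i hji
    have h : (j : ℕ) < i := hji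
    simp only [PM, mom]
    rw [Nat.choose_eq_zero_of_lt (by omega)]
    simp

end Pool.Agent.DL
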